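import Pool.Agent.H783R2.NVAlt

/-!
# Non-vanishing of Hankel determinants for alternating functionals with a numerator `W`

`Lt` is a functional with the shift identity
`Lt ((X + h) u) + Lt (X u(X+1)) = a u(1) + b u'(1)`, and `L f = Lt (W f)`.
-/

namespace Pool.Agent.H783R2

open Polynomial

variable {K : Type*} [Field K]

/-- General version of `dvd_of_min`. -/
lemma dvd_of_min' (L : K[X] →ₗ[K] K) (N d : ℕ) (Q B : K[X]) (hQ0 : Q ≠ 0)
    (hQ : Zp L N Q) (hmin : ∀ P : K[X], P ≠ 0 → Zp L N P → Q.natDegree ≤ P.natDegree)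
    (hr : Q.natDegree + d ≤ N + 1) (hB : B.natDegree ≤ Q.natDegree + d)
    (hL : ∀ g : K[X], g.natDegree + d ≤ N → L (B * g) = 0) : Q ∣ B := by
  classical
  set e := EuclideanDomain.gcd Q B with hd
  have hdQ : e ∣ Q := EuclideanDomain.gcd_dvd_left Q B
  have hdB : e ∣ B := EuclideanDomain.gcd_dvd_right Q B
  have hd0 : e ≠ 0 := fun h0 => hQ0 (zero_dvd_iff.mp (h0 ▸ hdQ))
  obtain ⟨A', hA'⟩ := hdQ
  obtain ⟨B', hB'⟩ := hdB
  have hA0 : A' ≠ 0 := by
    rintro rfl
    exact hQ0 (by rw [hA', mul_zero])
  have hdeg : Q.natDegree = e.natDegree + A'.natDegree := by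
    conv_lhs => rw [hA']
    exact natDegree_mul hd0 hA0
  have hbez := EuclideanDomain.gcd_eq_gcd_ab Q B
  have hZ : Zp L N e := by
    intro f hf
    set x := EuclideanDomain.gcdA Q B
    set y := EuclideanDomain.gcdB Q B
    set v := (y * f) % A' with hv
    set q := (y * f) / A' with hq
    have hvq : A' * q + v = y * f := EuclideanDomain.div_add_mod (y * f) A'
    set u := x * f + B' * q with hu
    have hdf : e * f = Q * u + B * v := by
      have h1 : e = Q * x + B * y := hbez
      have h2 : B * A' = B' * Q := by rw [hB', hA']; ring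
      calc e * f = (Q * x + B * y) * f := by rw [← h1]
        _ = Q * (x * f) + B * (y * f) := by ring
        _ = Q * (x * f) + B * (A' * q + v) := by rw [hvq]
        _ = Q * (x * f) + (B * A') * q + B * v := by ring
        _ = Q * (x * f) + (B' * Q) * q + B * v := by rw [h2]
        _ = Q * u + B * v := by rw [hu]; ring
    have hv0 : v = 0 ∨ v.natDegree < A'.natDegree := by
      by_cases hv0 : v = 0
      · exact Or.inl hv0
      · right
        have h1 : v.degree < A'.degree := EuclideanDomain.mod_lt (y * f) hA0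
        exact natDegree_lt_natDegree hv0 h1
    have hLB : L (B * v) = 0 := by
      rcases hv0 with h0 | h0
      · rw [h0, mul_zero, map_zero]
      · apply hL; omega
    have hu1 : u.natDegree ≤ N := by
      by_cases hu0 : u = 0
      · rw [hu0, natDegree_zero]; exact Nat.zero_le _
      have h3 : (Q * u).natDegree = Q.natDegree + u.natDegree := natDegree_mul hQ0 hu0
      have h4 : Q * u = e * f - B * v := by rw [hdf]; ring
      have h5 : (e * f - B * v).natDegree ≤ max (e * f).natDegree (B * v).natDegree :=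
        natDegree_sub_le _ _
      have h6 : (e * f).natDegree ≤ e.natDegree + f.natDegree := natDegree_mul_le
      have h7 : (B * v).natDegree ≤ B.natDegree + v.natDegree := natDegree_mul_le
      rw [← h4, h3] at h5
      rcases hv0 with h0 | h0
      · rw [h0, mul_zero, natDegree_zero, Nat.max_zero] at h5
        omega
      · rcases le_max_iff.mp h5 with h8 | h8
        · omega
        · omega
    rw [hdf, map_add, hQ u hu1, hLB, add_zero]
  have hle := hmin e hd0 hZ
  have hA1 : A'.natDegree = 0 := by omega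
  obtain ⟨c, hc⟩ := natDegree_eq_zero.mp hA1
  have hc0 : c ≠ 0 := by
    rintro rfl
    exact hA0 (by rw [← hc, C_0])
  refine ⟨C c⁻¹ * B', ?_⟩
  rw [hA', ← hc]
  calc B = e * B' := hB'
    _ = e * (C (c * c⁻¹)) * B' := by rw [mul_inv_cancel₀ hc0, C_1, mul_one]
    _ = e * C c * (C c⁻¹ * B') := by rw [C_mul]; ring

lemma natDegree_Xp1 : ((X : K[X]) + 1).natDegree = 1 := by
  have : (X : K[X]) + 1 = X + C 1 := by rw [C_1]
  rw [this, natDegree_X_add_C]

lemma natDegree_Xm1 : ((X : K[X]) - 1).natDegree = 1 := by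
  have : (X : K[X]) - 1 = X - C 1 := by rw [C_1]
  rw [this, natDegree_X_sub_C]

/-- A nonconstant `P` dividing `X^k P(X+1)` vanishes at `0`. -/
lemma eval_zero_of_dvd [CharZero K] (P : K[X]) (hP0 : P ≠ 0) (hpos : P.natDegree ≠ 0) (k : ℕ)
    (hdiv : P ∣ X ^ k * P.comp (X + 1)) : P.eval 0 = 0 := by
  let F := AlgebraicClosure K
  have : CharZero F := charZero_of_injective_algebraMap (algebraMap K F).injective
  obtain ⟨x, hx⟩ := IsAlgClosed.exists_aeval_eq_zero F P (by
    intro h0
    exact hpos (natDegree_eq_of_degree_eq_some h0))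
  obtain ⟨R1, hR1⟩ := hdiv
  have up : ∀ y : F, aeval y P = 0 → y ≠ 0 → aeval (y + 1) P = 0 := by
    intro y hy hy0
    have h1 := congrArg (aeval y) hR1
    rw [map_mul, map_mul, hy, zero_mul, map_pow, aeval_X, aeval_comp] at h1
    simp only [map_add, aeval_X, map_one] at h1
    rcases mul_eq_zero.mp h1 with h2 | h2
    · exact absurd h2 (pow_ne_zero _ hy0)
    · exact h2
  have hxn : ∃ n : ℕ, x + (n : F) = 0 := by
    by_contra hno
    push Not at hno
    apply hP0
    apply eq_zero_of_roots P x (P.natDegree + 1) (Nat.lt_succ_self _) (1 : F) one_ne_zero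
    intro i _
    rw [one_mul]
    induction i with
    | zero => simpa using hx
    | succ i ih =>
      have h1 := up _ (ih (by omega)) (hno i)
      have h2 : x + ((i + 1 : ℕ) : F) = x + (i : F) + 1 := by push_cast; ring
      rw [h2]; exact h1
  obtain ⟨n, hn⟩ := hxn
  have hup : ∀ j ≤ n, aeval (x + (j : F)) P = 0 := by
    intro j
    induction j with
    | zero => intro _; simpa using hx
    | succ j ih =>
      intro hj
      have h1 : x + (j : F) ≠ 0 := by
        intro h0
        have : (n : F) = (j : F) := by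
          have h2 : x + (n : F) = x + (j : F) := by rw [hn, h0]
          exact add_left_cancel h2
        have : n = j := by exact_mod_cast this
        omega
      have h2 := up _ (ih (by omega)) h1
      have h3 : x + ((j + 1 : ℕ) : F) = x + (j : F) + 1 := by push_cast; ring
      rw [h3]; exact h2
  have h0root : aeval (0 : F) P = 0 := by
    have := hup n le_rfl
    rwa [hn] at this
  have h4 : aeval (algebraMap K F 0) P = algebraMap K F (P.eval 0) := aeval_algebraMap_apply _ _ _
  rw [map_zero] at h4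
  rw [h4] at h0root
  exact (map_eq_zero (algebraMap K F)).mp h0root

/-- Going down from a zero at `0`. -/
lemma eval_neg_of_dvd (P V : K[X]) (h : ℕ) (h0 : P.eval 0 = 0)
    (hV : ∀ j : ℕ, j < h → V.eval (-(j : K)) ≠ 0)
    (hdiv : P ∣ V * P.comp (X - 1)) : ∀ j ≤ h, P.eval (-(j : K)) = 0 := by
  obtain ⟨R2, hR2⟩ := hdiv
  intro j
  induction j with
  | zero => intro _; simpa using h0
  | succ j ih =>
    intro hj
    have h1 := congrArg (eval (-(j : K))) hR2
    rw [eval_mul, eval_mul, ih (by omega), zero_mul, eval_comp] at h1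
    simp only [eval_sub, eval_X, eval_one] at h1
    have h3 : -((j + 1 : ℕ) : K) = -(j : K) - 1 := by push_cast; ring
    rw [h3]
    rcases mul_eq_zero.mp h1 with h2 | h2
    · exact absurd h2 (hV j (by omega))
    · exact h2

/-- If the moments up to `N` vanish and `d ≤ N + 1`, then all moments vanish. -/
lemma all_zero (L : K[X] →ₗ[K] K) (N d : ℕ) (V : K[X]) (hVd : V.natDegree ≤ d)
    (hVc : V.coeff d + 1 ≠ 0) (hN : d ≤ N + 1)
    (hP : ∀ u : K[X], L (V * u) + L (X ^ d * u.comp (X + 1)) = 0)
    (h0 : ∀ f : K[X], f.natDegree ≤ N → L f = 0) : ∀ f : K[X], L f = 0 := by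
  have key : ∀ n : ℕ, ∀ f : K[X], f.natDegree ≤ N + n → L f = 0 := by
    intro n
    induction n with
    | zero => intro f hf; exact h0 f hf
    | succ n ih =>
      intro f hf
      set j := N + n + 1 with hj
      set F : K[X] := V * X ^ (j - d) + X ^ d * (X ^ (j - d) : K[X]).comp (X + 1) with hF
      have hFc : F.coeff j = V.coeff d + 1 := by
        have e1 : (V * X ^ (j - d)).coeff j = V.coeff d := by
          have : j = d + (j - d) := by omega
          conv_lhs => rw [this]
          have h5 : d + (j - d) - d = j - d := by omega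
          rw [h5, coeff_mul_X_pow]
        have e2 : (X ^ d * (X ^ (j - d) : K[X]).comp (X + 1)).coeff j = 1 := by
          have h6 : (X ^ d * (X ^ (j - d) : K[X]).comp (X + 1)).Monic := by
            rw [pow_comp, X_comp]
            apply (monic_X_pow d).mul
            apply Monic.pow
            have : (X : K[X]) + 1 = X + C 1 := by rw [C_1]
            rw [this]
            exact monic_X_add_C 1
          have h7 : (X ^ d * (X ^ (j - d) : K[X]).comp (X + 1)).natDegree = j := by
            rw [pow_comp, X_comp]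
            have h8 : (((X : K[X]) + 1) ^ (j - d)).Monic := by
              apply Monic.pow
              have : (X : K[X]) + 1 = X + C 1 := by rw [C_1]
              rw [this]
              exact monic_X_add_C 1
            rw [(monic_X_pow d).natDegree_mul h8, natDegree_X_pow, natDegree_pow, natDegree_Xp1]
            omega
          have h9 := h6.coeff_natDegree
          rwa [h7] at h9
        rw [hF, coeff_add, e1, e2]
      have hFd : F.natDegree ≤ j := by
        rw [hF]
        refine natDegree_add_le_of_degree_le ?_ ?_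
        · refine le_trans natDegree_mul_le ?_
          rw [natDegree_X_pow]
          omega
        · refine le_trans natDegree_mul_le ?_
          rw [natDegree_X_pow, natDegree_comp, natDegree_X_pow, natDegree_Xp1]
          omega
      have hLF : L F = 0 := by
        rw [hF, map_add]
        exact hP _
      set c := f.coeff j / (V.coeff d + 1) with hc
      set g := f - C c * F with hg
      have hgd : g.natDegree ≤ N + n := by
        rw [natDegree_le_iff_coeff_eq_zero]
        intro i hi
        rcases Nat.lt_or_ge j i with h1 | h1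
        · rw [hg, coeff_sub, coeff_C_mul, coeff_eq_zero_of_natDegree_lt (by omega : f.natDegree < i),
            coeff_eq_zero_of_natDegree_lt (by omega : F.natDegree < i)]
          simp
        · have : i = j := by omega
          rw [this, hg, coeff_sub, coeff_C_mul, hFc, hc, div_mul_cancel₀ _ hVc, sub_self]
      have hfg : f = c • F + g := by
        rw [hg, smul_eq_C_mul]; ring
      rw [hfg, map_add, map_smul, hLF, smul_zero, zero_add]
      exact ih g hgd
  intro f
  exact key f.natDegree f (by omega)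

/-- The zero estimate without boundary term. -/
theorem zero_estimate' [CharZero K] (L : K[X] →ₗ[K] K) (h N d : ℕ) (V : K[X])
    (hVd : V.natDegree ≤ d) (hVc : V.coeff d + 1 ≠ 0)
    (hV : ∀ j : ℕ, j < h → V.eval (-(j : K)) ≠ 0) (hN : d ≤ N + 1)
    (hP : ∀ u : K[X], L (V * u) + L (X ^ d * u.comp (X + 1)) = 0)
    (hL0 : ∃ f : K[X], L f ≠ 0) (Q : K[X]) (hQ0 : Q ≠ 0) (hQ : Zp L N Q)
    (hQh : Q.natDegree ≤ h) : N + 2 ≤ Q.natDegree + d := by
  classical
  by_contra hcon
  have hex : ∃ r : ℕ, ∃ P : K[X], P ≠ 0 ∧ Zp L N P ∧ P.natDegree = r := ⟨_, Q, hQ0, hQ, rfl⟩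
  obtain ⟨P, hP0, hPZ, hPr⟩ := Nat.find_spec hex
  have hmin : ∀ P' : K[X], P' ≠ 0 → Zp L N P' → P.natDegree ≤ P'.natDegree := by
    intro P' h1 h2
    rw [hPr]
    exact Nat.find_min' hex ⟨P', h1, h2, rfl⟩
  have hle := hmin Q hQ0 hQ
  have hr : P.natDegree + d ≤ N + 1 := by omega
  clear hPr hcon
  have hdiv1 : P ∣ X ^ d * P.comp (X + 1) := by
    apply dvd_of_min' L N d P _ hP0 hPZ hmin hr
    · refine le_trans natDegree_mul_le ?_
      rw [natDegree_X_pow, natDegree_comp, natDegree_Xp1]
      omega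
    · intro g hg
      have h1 := hP (P * g.comp (X - 1))
      have hz : L (V * (P * g.comp (X - 1))) = 0 := by
        have : V * (P * g.comp (X - 1)) = P * (V * g.comp (X - 1)) := by ring
        rw [this]
        apply hPZ
        refine le_trans natDegree_mul_le ?_
        rw [natDegree_comp, natDegree_Xm1]
        omega
      have hc : X ^ d * (P * g.comp (X - 1)).comp (X + 1) = X ^ d * P.comp (X + 1) * g := by
        rw [mul_comp, comp_assoc]
        simp only [sub_comp, X_comp, one_comp, add_sub_cancel_right, comp_X]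
        ring
      rwa [hz, hc, zero_add] at h1
  have hdiv2 : P ∣ V * P.comp (X - 1) := by
    apply dvd_of_min' L N d P _ hP0 hPZ hmin hr
    · refine le_trans natDegree_mul_le ?_
      rw [natDegree_comp, natDegree_Xm1]
      omega
    · intro g hg
      have h1 := hP (P.comp (X - 1) * g)
      have hz : L (X ^ d * (P.comp (X - 1) * g).comp (X + 1)) = 0 := by
        have : X ^ d * (P.comp (X - 1) * g).comp (X + 1) = P * (X ^ d * g.comp (X + 1)) := by
          rw [mul_comp, comp_assoc]
          simp only [sub_comp, X_comp, one_comp, add_sub_cancel_right, comp_X]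
          ring
        rw [this]
        apply hPZ
        refine le_trans natDegree_mul_le ?_
        rw [natDegree_X_pow, natDegree_comp, natDegree_Xp1]
        omega
      have hc : V * (P.comp (X - 1) * g) = V * P.comp (X - 1) * g := by ring
      rwa [hz, hc, add_zero] at h1
  by_cases hpos : P.natDegree = 0
  · obtain ⟨c, hc⟩ := natDegree_eq_zero.mp hpos
    have hc0 : c ≠ 0 := by
      rintro rfl
      exact hP0 (by rw [← hc, C_0])
    have hall : ∀ f : K[X], f.natDegree ≤ N → L f = 0 := by
      intro f hf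
      have h1 := hPZ (C c⁻¹ * f) (le_trans natDegree_mul_le (by rw [natDegree_C]; omega))
      rwa [← hc, ← mul_assoc, ← C_mul, mul_inv_cancel₀ hc0, C_1, one_mul] at h1
    obtain ⟨f, hf⟩ := hL0
    exact hf (all_zero L N d V hVd hVc hN hP hall f)
  · have h0 := eval_zero_of_dvd P hP0 hpos d hdiv1
    have hdown := eval_neg_of_dvd P V h h0 hV hdiv2
    apply hP0
    apply eq_zero_of_roots P (0 : K) (h + 1) (by omega) (-1 : K) (by norm_num)
    intro i hi
    have := hdown i (by omega)
    have h3 : (0 : K) + -1 * (i : K) = -(i : K) := by ring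
    rw [h3, aeval_def, Algebra.algebraMap_self, eval₂_id]
    exact this

/-- A functional with a nontrivial boundary term does not vanish on the ideal generated by a
polynomial `W` with `W(0) ≠ 0`. -/
theorem exists_ne_zero [CharZero K] (Lt : K[X] →ₗ[K] K) (h : ℕ) (a b : K) (hab : a ≠ 0 ∨ b ≠ 0)
    (hP : ∀ u : K[X], Lt ((X + C (h : K)) * u) + Lt (X * u.comp (X + 1))
      = a * u.eval 1 + b * (derivative u).eval 1)
    (W : K[X]) (hW : W.eval 0 ≠ 0) : ∃ f : K[X], Lt (W * f) ≠ 0 := by
  classical
  by_contra hcon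
  push Not at hcon
  let J : Ideal K[X] :=
    { carrier := {w | ∀ q : K[X], Lt (w * q) = 0}
      add_mem' := by
        intro x y hx hy q
        rw [add_mul, map_add, hx q, hy q, add_zero]
      zero_mem' := by
        intro q
        rw [zero_mul, map_zero]
      smul_mem' := by
        intro c x hx q
        have : c • x * q = x * (c * q) := by rw [smul_eq_mul]; ring
        rw [this]
        exact hx _ }
  have hJ : ∀ w : K[X], w ∈ J ↔ ∀ q : K[X], Lt (w * q) = 0 := fun w => Iff.rfl
  have hWJ : W ∈ J := (hJ W).mpr hcon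
  set w0 := Submodule.IsPrincipal.generator J with hw0
  have hmem : ∀ w : K[X], w ∈ J ↔ w0 ∣ w := fun w =>
    Submodule.IsPrincipal.mem_iff_generator_dvd J
  have hw0J : w0 ∈ J := (hmem w0).mpr dvd_rfl
  have hW0 : W ≠ 0 := by
    rintro rfl
    exact hW eval_zero
  have hw00 : w0 ≠ 0 := by
    intro h0
    have := (hmem W).mp hWJ
    rw [h0, zero_dvd_iff] at this
    exact hW0 this
  have hshift : w0 ∣ X ^ 3 * w0.comp (X + 1) := by
    rw [← hmem, hJ]
    intro q
    have h1 := hP (w0 * ((X - 1) ^ 2 * q.comp (X - 1)))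
    have hz : Lt ((X + C (h : K)) * (w0 * ((X - 1) ^ 2 * q.comp (X - 1)))) = 0 := by
      have : (X + C (h : K)) * (w0 * ((X - 1) ^ 2 * q.comp (X - 1)))
          = w0 * ((X + C (h : K)) * ((X - 1) ^ 2 * q.comp (X - 1))) := by ring
      rw [this]
      exact (hJ w0).mp hw0J _
    have hc : X * (w0 * ((X - 1) ^ 2 * q.comp (X - 1))).comp (X + 1)
        = X ^ 3 * w0.comp (X + 1) * q := by
      rw [mul_comp, mul_comp, pow_comp, comp_assoc]
      simp only [sub_comp, X_comp, one_comp, add_sub_cancel_right, comp_X]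
      ring
    rw [hz, hc, zero_add] at h1
    rw [h1]
    simp [derivative_mul, derivative_pow]
  by_cases hpos : w0.natDegree = 0
  · obtain ⟨c, hc⟩ := natDegree_eq_zero.mp hpos
    have hc0 : c ≠ 0 := by
      intro h0
      rw [h0, C_0] at hc
      exact hw00 hc.symm
    have hall : ∀ f : K[X], Lt f = 0 := by
      intro f
      have h1 := (hJ w0).mp hw0J (C c⁻¹ * f)
      rwa [← hc, ← mul_assoc, ← C_mul, mul_inv_cancel₀ hc0, C_1, one_mul] at h1
    have ha : a = 0 := by
      have h1 := hP 1
      rw [hall, hall] at h1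
      simpa using h1.symm
    have hb : b = 0 := by
      have h1 := hP X
      rw [hall, hall, ha] at h1
      simpa using h1.symm
    rcases hab with h1 | h1
    · exact h1 ha
    · exact h1 hb
  · have h0 := eval_zero_of_dvd w0 hw00 hpos 3 hshift
    obtain ⟨R, hR⟩ := (hmem W).mp hWJ
    apply hW
    rw [hR, eval_mul, h0, zero_mul]

/-- **Non-vanishing with a numerator `W`.** -/
theorem nv_W [CharZero K] (Lt : K[X] →ₗ[K] K) (h z : ℕ) (a b : K) (hab : a ≠ 0 ∨ b ≠ 0)
    (hP : ∀ u : K[X], Lt ((X + C (h : K)) * u) + Lt (X * u.comp (X + 1))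
      = a * u.eval 1 + b * (derivative u).eval 1)
    (W A : K[X]) (hW : W.eval 0 ≠ 0) (hWA : (W * A).comp (X + 1) = X ^ z * W)
    (hdiv : (X - 1) ^ 2 ∣ W * A) (hAd : A.natDegree ≤ z) (hAc : A.coeff z + 1 ≠ 0)
    (hA : ∀ j : ℕ, j < h → A.eval (-(j : K)) ≠ 0)
    (L : K[X] →ₗ[K] K) (hL : ∀ f, L f = Lt (W * f)) (n : ℕ) (hn1 : z + 1 ≤ n)
    (hn2 : n ≤ h + z + 1) :
    ∃ m, n ≤ m + z ∧ m ≤ n ∧ (Hk L m).det ≠ 0 := by
  obtain ⟨s, hs, hD, Q, hQm, hQd, hQ⟩ := exists_orth L n
  refine ⟨s, ?_, hs, hD⟩
  by_contra hcon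
  have hV1 : ((X + C (h : K)) * A).natDegree ≤ z + 1 := by
    refine le_trans natDegree_mul_le ?_
    rw [natDegree_X_add_C]
    omega
  have hVc : ((X + C (h : K)) * A).coeff (z + 1) + 1 ≠ 0 := by
    have : ((X + C (h : K)) * A).coeff (z + 1) = A.coeff z := by
      rw [add_mul, coeff_add, coeff_X_mul, coeff_C_mul,
        coeff_eq_zero_of_natDegree_lt (by omega : A.natDegree < z + 1), mul_zero, add_zero]
    rw [this]
    exact hAc
  have hV : ∀ j : ℕ, j < h → ((X + C (h : K)) * A).eval (-(j : K)) ≠ 0 := by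
    intro j hj
    rw [eval_mul, eval_add, eval_X, eval_C]
    apply mul_ne_zero _ (hA j hj)
    intro h0
    have h1 : (h : K) = (j : K) := by linear_combination h0
    have h2 : h = j := by exact_mod_cast h1
    omega
  have hP' : ∀ u : K[X], L ((X + C (h : K)) * A * u) + L (X ^ (z + 1) * u.comp (X + 1)) = 0 := by
    intro u
    have h1 := hP (W * A * u)
    rw [hL, hL]
    have e1 : W * ((X + C (h : K)) * A * u) = (X + C (h : K)) * (W * A * u) := by ring
    have e2 : W * (X ^ (z + 1) * u.comp (X + 1)) = X * (W * A * u).comp (X + 1) := by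
      rw [mul_comp, hWA]
      ring
    rw [e1, e2, h1]
    obtain ⟨R, hR⟩ := hdiv
    rw [hR]
    simp [derivative_mul, derivative_pow]
  have hne : ∃ f : K[X], L f ≠ 0 := by
    obtain ⟨f, hf⟩ := exists_ne_zero Lt h a b hab hP W hW
    exact ⟨f, by rw [hL]; exact hf⟩
  have := zero_estimate' L h (n - 1) (z + 1) _ hV1 hVc hV (by omega) hP' hne Q hQm.ne_zero
    (fun f hf => orth_ext L Q (n - 1) (fun j hj => hQ j (by omega)) f hf) (by omega)
  omega

/-- The standard numerator `c ∏_{i=1}^e (X - i)^z`, `z ≥ 2`. -/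
noncomputable def Wst (e z : ℕ) (c : K) : K[X] := C c * ∏ i ∈ Finset.range e, (X - C ((i : K) + 1)) ^ z

theorem nv_Wst [CharZero K] (Lt : K[X] →ₗ[K] K) (h z e : ℕ) (hz : 2 ≤ z) (c : K) (hc : c ≠ 0)
    (a b : K) (hab : a ≠ 0 ∨ b ≠ 0)
    (hP : ∀ u : K[X], Lt ((X + C (h : K)) * u) + Lt (X * u.comp (X + 1))
      = a * u.eval 1 + b * (derivative u).eval 1)
    (L : K[X] →ₗ[K] K) (hL : ∀ f, L f = Lt (Wst e z c * f)) (n : ℕ) (hn1 : z + 1 ≤ n)
    (hn2 : n ≤ h + z + 1) :
    ∃ m, n ≤ m + z ∧ m ≤ n ∧ (Hk L m).det ≠ 0 := by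
  have hpos : ∀ i : ℕ, ((i : K) + 1) ≠ 0 := fun i => by exact_mod_cast Nat.succ_ne_zero i
  apply nv_W Lt h z a b hab hP (Wst e z c) ((X - C ((e : K) + 1)) ^ z) ?_ ?_ ?_ ?_ ?_ ?_ L hL n hn1 hn2
  · unfold Wst
    rw [eval_mul, eval_C, eval_prod]
    apply mul_ne_zero hc
    rw [Finset.prod_ne_zero_iff]
    intro i _
    rw [eval_pow, eval_sub, eval_X, eval_C, zero_sub]
    exact pow_ne_zero _ (neg_ne_zero.mpr (hpos i))
  · unfold Wst
    have h1 : ∀ i : ℕ, (X - C ((i : K) + 1)).comp (X + 1 : K[X]) = X - C (i : K) := by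
      intro i
      simp only [sub_comp, X_comp, C_comp, C_add, C_1, add_comp, one_comp]
      ring
    rw [mul_assoc, ← Finset.prod_range_succ (fun i : ℕ => (X - C ((i : K) + 1)) ^ z), mul_comp,
      C_comp, Polynomial.prod_comp]
    simp only [pow_comp, h1]
    rw [Finset.prod_range_succ']
    simp only [Nat.cast_add, Nat.cast_one, Nat.cast_zero, C_0, sub_zero]
    ring
  · unfold Wst
    have h2 : (X - 1 : K[X]) ^ 2 ∣ ∏ i ∈ Finset.range (e + 1), (X - C ((i : K) + 1)) ^ z := by
      have h3 : ((X - C (((0 : ℕ) : K) + 1)) ^ z : K[X]) ∣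
          ∏ i ∈ Finset.range (e + 1), (X - C ((i : K) + 1)) ^ z :=
        Finset.dvd_prod_of_mem (fun i : ℕ => (X - C ((i : K) + 1)) ^ z) (Finset.mem_range.mpr (by omega))
      refine dvd_trans ?_ h3
      simp only [Nat.cast_zero, zero_add, C_1]
      exact pow_dvd_pow _ hz
    rw [mul_assoc, ← Finset.prod_range_succ (fun i : ℕ => (X - C ((i : K) + 1)) ^ z)]
    exact Dvd.dvd.mul_left h2 _
  · rw [natDegree_pow, natDegree_X_sub_C, mul_one]
  · have h3 : ((X - C ((e : K) + 1)) ^ z : K[X]).Monic := (monic_X_sub_C _).pow z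
    have h4 := h3.coeff_natDegree
    rw [natDegree_pow, natDegree_X_sub_C, mul_one] at h4
    rw [h4]
    norm_num
  · intro j _
    rw [eval_pow, eval_sub, eval_X, eval_C]
    apply pow_ne_zero
    have h5 : -(j : K) - ((e : K) + 1) = -(((j + e : ℕ) : K) + 1) := by push_cast; ring
    rw [h5]
    exact neg_ne_zero.mpr (hpos _)

end Pool.Agent.H783R2
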