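import Mathlib

/-!
# Non-vanishing of Hankel determinants by a shift argument (helper783)

`L` is a linear functional on `K[X]`.  `Hk L m` is the `m × m` Hankel matrix `(L (X^(i+j)))`.
* `exists_orth`: for every `n` there is `s ≤ n` with `det (Hk L s) ≠ 0` and a monic `Q` of degree `s`
  orthogonal to all `X^j`, `j < n`.
* `nv_alt`: if `L` has the alternating shift property
  `L ((X+h) u) + L (X u(X+1)) = a u(1) + b u'(1)` with `(a,b) ≠ (0,0)`, then one of
  `det (Hk L (h-1))`, `det (Hk L h)`, `det (Hk L (h+1))` is nonzero.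
-/

open Polynomial

namespace Pool.Agent.H783R2

variable {K : Type*} [Field K]

/-- Hankel matrix of a linear functional on polynomials. -/
noncomputable def Hk (L : K[X] →ₗ[K] K) (m : ℕ) : Matrix (Fin m) (Fin m) K :=
  Matrix.of fun i j => L (X ^ ((i : ℕ) + (j : ℕ)))

/-- The polynomial with given coefficient vector. -/
noncomputable def pol {m : ℕ} (v : Fin m → K) : K[X] := ∑ i : Fin m, C (v i) * X ^ (i : ℕ)

lemma pol_degree_lt {m : ℕ} (v : Fin m → K) : (pol v).degree < m := by
  unfold pol
  refine lt_of_le_of_lt (degree_sum_le _ _) ?_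
  rw [Finset.sup_lt_iff (by exact_mod_cast WithBot.bot_lt_coe m)]
  intro i _
  refine lt_of_le_of_lt (degree_C_mul_X_pow_le _ _) ?_
  exact_mod_cast i.2

lemma pol_coeff {m : ℕ} (v : Fin m → K) (i : Fin m) : (pol v).coeff i = v i := by
  unfold pol
  rw [finsetSum_coeff]
  rw [Finset.sum_eq_single i]
  · simp
  · intro j _ hj
    rw [coeff_C_mul_X_pow, if_neg]
    intro h
    exact hj (Fin.ext h.symm)
  · simp

lemma L_pol {m : ℕ} (L : K[X] →ₗ[K] K) (v : Fin m → K) (j : ℕ) :
    L (pol v * X ^ j) = ∑ i : Fin m, v i * L (X ^ ((i : ℕ) + j)) := by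
  unfold pol
  rw [Finset.sum_mul, map_sum]
  refine Finset.sum_congr rfl fun i _ => ?_
  rw [mul_assoc, ← pow_add, ← smul_eq_C_mul, map_smul, smul_eq_mul]

lemma eq_pol {m : ℕ} (P : K[X]) (hP : P.degree < m) : P = pol (fun i : Fin m => P.coeff i) := by
  ext k
  by_cases hk : k < m
  · have := pol_coeff (fun i : Fin m => P.coeff i) ⟨k, hk⟩
    simpa using this.symm
  · have h1 : P.coeff k = 0 := coeff_eq_zero_of_degree_lt (lt_of_lt_of_le hP (by exact_mod_cast not_lt.mp hk))
    have h2 : (pol (fun i : Fin m => P.coeff i)).coeff k = 0 :=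
      coeff_eq_zero_of_degree_lt (lt_of_lt_of_le (pol_degree_lt _) (by exact_mod_cast not_lt.mp hk))
    rw [h1, h2]

/-- Nonzero Hankel determinant means: no nonzero polynomial of degree `< m` is orthogonal to all
`X^j`, `j < m`. -/
lemma det_ne_zero_iff (L : K[X] →ₗ[K] K) (m : ℕ) :
    (Hk L m).det ≠ 0 ↔ ∀ P : K[X], P.degree < m → (∀ j < m, L (P * X ^ j) = 0) → P = 0 := by
  constructor
  · intro hdet P hP hL
    by_contra hne
    apply hdet
    rw [← Matrix.exists_mulVec_eq_zero_iff]
    refine ⟨fun i => P.coeff i, ?_, ?_⟩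
    · intro h0
      apply hne
      rw [eq_pol P hP]
      have : (fun i : Fin m => P.coeff i) = 0 := h0
      rw [this]
      simp [pol]
    · ext j
      have h1 := hL j j.2
      rw [eq_pol P hP, L_pol] at h1
      simp only [Matrix.mulVec, dotProduct, Hk, Matrix.of_apply, Pi.zero_apply]
      rw [← h1]
      refine Finset.sum_congr rfl fun i _ => ?_
      have h2 : (pol (fun i : Fin m => P.coeff i)).coeff i = P.coeff i := pol_coeff _ i
      rw [mul_comm, add_comm]
  · intro h hdet
    rw [← Matrix.exists_mulVec_eq_zero_iff] at hdet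
    obtain ⟨v, hv, hMv⟩ := hdet
    apply hv
    have hp : pol v = 0 := by
      apply h _ (pol_degree_lt v)
      intro j hj
      rw [L_pol]
      have := congrFun hMv ⟨j, hj⟩
      simp only [Matrix.mulVec, dotProduct, Hk, Matrix.of_apply, Pi.zero_apply] at this
      rw [← this]
      refine Finset.sum_congr rfl fun i _ => ?_
      rw [mul_comm, add_comm]
    ext i
    rw [← pol_coeff v i, hp]
    simp

lemma exists_monic (L : K[X] →ₗ[K] K) (m : ℕ) (hdet : (Hk L m).det ≠ 0) :
    ∃ Q : K[X], Q.Monic ∧ Q.natDegree = m ∧ ∀ j < m, L (Q * X ^ j) = 0 := by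
  have hu : IsUnit (Hk L m).det := isUnit_iff_ne_zero.mpr hdet
  obtain ⟨v, hv⟩ := (Matrix.mulVec_surjective_iff_isUnit.mpr ((Matrix.isUnit_iff_isUnit_det _).mpr hu))
    (fun j : Fin m => - L (X ^ (m + (j : ℕ))))
  refine ⟨X ^ m + pol v, ?_, ?_, ?_⟩
  · exact monic_X_pow_add (pol_degree_lt v)
  · have h := degree_add_eq_left_of_degree_lt (p := (X : K[X]) ^ m) (q := pol v) (by
      rw [degree_X_pow]; exact pol_degree_lt v)
    rw [degree_X_pow] at h
    exact natDegree_eq_of_degree_eq_some h
  · intro j hj
    rw [add_mul, map_add, L_pol, ← pow_add]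
    have := congrFun hv ⟨j, hj⟩
    simp only [Matrix.mulVec, dotProduct, Hk, Matrix.of_apply] at this
    have h2 : ∑ i : Fin m, v i * L (X ^ ((i : ℕ) + j)) = - L (X ^ (m + j)) := by
      rw [← this]
      refine Finset.sum_congr rfl fun i _ => ?_
      rw [mul_comm, add_comm]
    rw [h2]; ring

/-- linear extension: orthogonality to monomials gives orthogonality to polynomials. -/
lemma orth_ext (L : K[X] →ₗ[K] K) (Q : K[X]) (n : ℕ) (h : ∀ j ≤ n, L (Q * X ^ j) = 0)
    (f : K[X]) (hf : f.natDegree ≤ n) : L (Q * f) = 0 := by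
  rw [f.as_sum_range_C_mul_X_pow, Finset.mul_sum, map_sum]
  apply Finset.sum_eq_zero
  intro i hi
  have hi' : i ≤ n := by
    have := Finset.mem_range.mp hi
    omega
  have : Q * (C (f.coeff i) * X ^ i) = f.coeff i • (Q * X ^ i) := by
    rw [smul_eq_C_mul]; ring
  rw [this, map_smul, h i hi', smul_zero]

/-- The Hankel lemma. -/
theorem exists_orth (L : K[X] →ₗ[K] K) (n : ℕ) :
    ∃ s ≤ n, (Hk L s).det ≠ 0 ∧ ∃ Q : K[X], Q.Monic ∧ Q.natDegree = s ∧
      ∀ j < n, L (Q * X ^ j) = 0 := by
  induction n with
  | zero =>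
    refine ⟨0, le_rfl, ?_, 1, monic_one, natDegree_one, fun j hj => absurd hj (Nat.not_lt_zero j)⟩
    simp [Matrix.det_isEmpty]
  | succ n ih =>
    obtain ⟨s, hs, hD, Q, hQm, hQd, hQ⟩ := ih
    by_cases hx : L (Q * X ^ n) = 0
    · refine ⟨s, by omega, hD, Q, hQm, hQd, ?_⟩
      intro j hj
      rcases Nat.lt_succ_iff_lt_or_eq.mp hj with h | h
      · exact hQ j h
      · rw [h]; exact hx
    · have hD' : (Hk L (n + 1)).det ≠ 0 := by
        rw [det_ne_zero_iff]
        intro P hP hL
        by_contra hne
        have hPn : P.natDegree ≤ n := by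
          have h1 := (natDegree_lt_iff_degree_lt hne).mpr hP
          omega
        by_cases hps : s ≤ P.natDegree
        · -- test with X^(n-p) Q
          have key : L (P * (X ^ (n - P.natDegree) * Q)) = 0 := by
            apply orth_ext L P n (fun j hj => hL j (by omega))
            refine le_trans natDegree_mul_le ?_
            rw [natDegree_X_pow, hQd]
            omega
          have key2 : L (P * (X ^ (n - P.natDegree) * Q)) = P.leadingCoeff * L (Q * X ^ n) := by
            have h3' : ∀ G : K[X], P * G
                = ∑ i ∈ Finset.range (P.natDegree + 1), P.coeff i • (X ^ i * G) := by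
              intro G
              nth_rewrite 1 [P.as_sum_range_C_mul_X_pow]
              rw [Finset.sum_mul]
              refine Finset.sum_congr rfl fun i _ => ?_
              rw [smul_eq_C_mul]; ring
            have h3 : P * (X ^ (n - P.natDegree) * Q)
                = ∑ i ∈ Finset.range (P.natDegree + 1),
                  P.coeff i • (Q * X ^ (i + (n - P.natDegree))) := by
              rw [h3']
              refine Finset.sum_congr rfl fun i _ => ?_
              rw [pow_add]
              congr 1; ring
            rw [h3, map_sum, Finset.sum_range_succ, Finset.sum_eq_zero]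
            · rw [zero_add, map_smul, smul_eq_mul]
              have : P.natDegree + (n - P.natDegree) = n := by omega
              rw [this]; rfl
            · intro i hi
              have hi' := Finset.mem_range.mp hi
              rw [map_smul, hQ _ (by omega), smul_zero]
          rw [key2] at key
          rcases mul_eq_zero.mp key with h | h
          · exact hne (leadingCoeff_eq_zero.mp h)
          · exact hx h
        · push Not at hps
          apply hne
          apply (det_ne_zero_iff L s).mp hD P
          · exact (natDegree_lt_iff_degree_lt hne).mp hps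
          · intro j hj
            exact hL j (by omega)
      obtain ⟨Q', h1, h2, h3⟩ := exists_monic L (n + 1) hD'
      exact ⟨n + 1, le_rfl, hD', Q', h1, h2, h3⟩

/-! ### The zero estimate -/

/-- `Zp L h Q`: `Q` is orthogonal to all polynomials of degree `≤ h`. -/
def Zp (L : K[X] →ₗ[K] K) (h : ℕ) (Q : K[X]) : Prop :=
  ∀ f : K[X], f.natDegree ≤ h → L (Q * f) = 0

/-- If `Q` has minimal degree `r` among the nonzero solutions of `Zp`, `r + 2 ≤ h`, and `B` has degree
`≤ r + 3` with `L (B g) = 0` for `deg g + 3 ≤ h`, then `Q ∣ B`. -/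
lemma dvd_of_min (L : K[X] →ₗ[K] K) (h : ℕ) (Q B : K[X]) (hQ0 : Q ≠ 0)
    (hQ : Zp L h Q) (hmin : ∀ P : K[X], P ≠ 0 → Zp L h P → Q.natDegree ≤ P.natDegree)
    (hr : Q.natDegree + 2 ≤ h) (hB : B.natDegree ≤ Q.natDegree + 3)
    (hL : ∀ g : K[X], g.natDegree + 3 ≤ h → L (B * g) = 0) : Q ∣ B := by
  classical
  set d := EuclideanDomain.gcd Q B with hd
  have hdQ : d ∣ Q := EuclideanDomain.gcd_dvd_left Q B
  have hdB : d ∣ B := EuclideanDomain.gcd_dvd_right Q B
  have hd0 : d ≠ 0 := fun h0 => hQ0 (zero_dvd_iff.mp (h0 ▸ hdQ))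
  obtain ⟨A', hA'⟩ := hdQ
  obtain ⟨B', hB'⟩ := hdB
  have hA0 : A' ≠ 0 := by
    rintro rfl
    exact hQ0 (by rw [hA', mul_zero])
  have hdeg : Q.natDegree = d.natDegree + A'.natDegree := by
    conv_lhs => rw [hA']
    exact natDegree_mul hd0 hA0
  have hbez := EuclideanDomain.gcd_eq_gcd_ab Q B
  have hZ : Zp L h d := by
    intro f hf
    set x := EuclideanDomain.gcdA Q B
    set y := EuclideanDomain.gcdB Q B
    set v := (y * f) % A' with hv
    set q := (y * f) / A' with hq
    have hvq : A' * q + v = y * f := EuclideanDomain.div_add_mod (y * f) A'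
    set u := x * f + B' * q with hu
    have hdf : d * f = Q * u + B * v := by
      have h1 : d = Q * x + B * y := hbez
      have h2 : B * A' = B' * Q := by rw [hB', hA']; ring
      calc d * f = (Q * x + B * y) * f := by rw [← h1]
        _ = Q * (x * f) + B * (y * f) := by ring
        _ = Q * (x * f) + B * (A' * q + v) := by rw [hvq]
        _ = Q * (x * f) + (B * A') * q + B * v := by ring
        _ = Q * (x * f) + (B' * Q) * q + B * v := by rw [h2]
        _ = Q * u + B * v := by rw [hu]; ring
    have hv0 : v = 0 ∨ v.natDegree < A'.natDegree := by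
      by_cases hv0 : v = 0
      · exact Or.inl hv0
      · right
        have h1 : v.degree < A'.degree := EuclideanDomain.mod_lt (y * f) hA0
        exact natDegree_lt_natDegree hv0 h1
    have hLB : L (B * v) = 0 := by
      rcases hv0 with h0 | h0
      · rw [h0, mul_zero, map_zero]
      · apply hL; omega
    have hu1 : u.natDegree ≤ h := by
      by_cases hu0 : u = 0
      · rw [hu0, natDegree_zero]; exact Nat.zero_le _
      have h3 : (Q * u).natDegree = Q.natDegree + u.natDegree := natDegree_mul hQ0 hu0
      have h4 : Q * u = d * f - B * v := by rw [hdf]; ring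
      have h5 : (d * f - B * v).natDegree ≤ max (d * f).natDegree (B * v).natDegree :=
        natDegree_sub_le _ _
      have h6 : (d * f).natDegree ≤ d.natDegree + f.natDegree := natDegree_mul_le
      have h7 : (B * v).natDegree ≤ B.natDegree + v.natDegree := natDegree_mul_le
      rw [← h4, h3] at h5
      rcases hv0 with h0 | h0
      · rw [h0, mul_zero, natDegree_zero, Nat.max_zero] at h5
        omega
      · rcases le_max_iff.mp h5 with h8 | h8
        · omega
        · omega
    rw [hdf, map_add, hQ u hu1, hLB, add_zero]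
  have hle := hmin d hd0 hZ
  have hA1 : A'.natDegree = 0 := by omega
  obtain ⟨c, hc⟩ := natDegree_eq_zero.mp hA1
  have hc0 : c ≠ 0 := by
    rintro rfl
    exact hA0 (by rw [← hc, C_0])
  refine ⟨C c⁻¹ * B', ?_⟩
  rw [hA', ← hc]
  calc B = d * B' := hB'
    _ = d * (C (c * c⁻¹)) * B' := by rw [mul_inv_cancel₀ hc0, C_1, mul_one]
    _ = d * C c * (C c⁻¹ * B') := by rw [C_mul]; ring

/-- Too many roots. -/
lemma eq_zero_of_roots {F : Type*} [Field F] [Algebra K F] [CharZero F] (Q : K[X]) (a : F)
    (n : ℕ) (hn : Q.natDegree < n) (e : F) (he : e ≠ 0)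
    (h : ∀ i < n, aeval (a + e * (i : F)) Q = 0) : Q = 0 := by
  have h1 : Q.map (algebraMap K F) = 0 := by
    apply eq_zero_of_natDegree_lt_card_of_eval_eq_zero (Q.map (algebraMap K F))
      (f := fun i : Fin n => a + e * ((i : ℕ) : F))
    · intro i j hij
      have h2 : e * ((i : ℕ) : F) = e * ((j : ℕ) : F) := add_left_cancel hij
      have h3 := mul_left_cancel₀ he h2
      exact Fin.ext (by exact_mod_cast h3)
    · intro i
      have := h i i.2
      rwa [aeval_def, ← eval_map] at this
    · rw [natDegree_map, Fintype.card_fin]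
      exact hn
  exact (Polynomial.map_eq_zero_iff (algebraMap K F).injective).mp h1

theorem zero_estimate [CharZero K] (L : K[X] →ₗ[K] K) (h : ℕ) (hh : 2 ≤ h) (a b : K)
    (hab : a ≠ 0 ∨ b ≠ 0)
    (hP : ∀ u : K[X], L ((X + C (h : K)) * u) + L (X * u.comp (X + 1))
      = a * u.eval 1 + b * (derivative u).eval 1)
    (Q : K[X]) (hQ0 : Q ≠ 0) (hQ : Zp L h Q) : h ≤ Q.natDegree + 1 := by
  classical
  by_contra hcon
  -- choose Q of minimal degree
  have hex : ∃ r : ℕ, ∃ P : K[X], P ≠ 0 ∧ Zp L h P ∧ P.natDegree = r := ⟨_, Q, hQ0, hQ, rfl⟩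
  obtain ⟨P, hP0, hPZ, hPr⟩ := Nat.find_spec hex
  have hmin : ∀ P' : K[X], P' ≠ 0 → Zp L h P' → P.natDegree ≤ P'.natDegree := by
    intro P' h1 h2
    rw [hPr]
    exact Nat.find_min' hex ⟨P', h1, h2, rfl⟩
  have hr : P.natDegree + 2 ≤ h := by
    have := hmin Q hQ0 hQ
    omega
  clear hPr hcon
  have hX1 : ((X : K[X]) + 1).natDegree = 1 := by
    have : (X : K[X]) + 1 = X + C 1 := by rw [C_1]
    rw [this, natDegree_X_add_C]
  have hXm1 : ((X : K[X]) - 1).natDegree = 1 := by
    have : (X : K[X]) - 1 = X - C 1 := by rw [C_1]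
    rw [this, natDegree_X_sub_C]
  -- first divisibility
  have hdiv1 : P ∣ X ^ 3 * P.comp (X + 1) := by
    apply dvd_of_min L h P _ hP0 hPZ hmin hr
    · refine le_trans natDegree_mul_le ?_
      rw [natDegree_X_pow, natDegree_comp, hX1]
      omega
    · intro g hg
      -- f = (X-1)^2 * g(X-1)
      have h1 := hP (P * ((X - 1) ^ 2 * g.comp (X - 1)))
      have hz : L ((X + C (h : K)) * (P * ((X - 1) ^ 2 * g.comp (X - 1)))) = 0 := by
        have : (X + C (h : K)) * (P * ((X - 1) ^ 2 * g.comp (X - 1)))
            = P * ((X + C (h : K)) * ((X - 1) ^ 2 * g.comp (X - 1))) := by ring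
        rw [this]
        apply hPZ
        refine le_trans natDegree_mul_le ?_
        rw [natDegree_X_add_C]
        have h2 : ((X - 1) ^ 2 * g.comp (X - 1) : K[X]).natDegree ≤ 2 + g.natDegree := by
          refine le_trans natDegree_mul_le ?_
          rw [natDegree_pow, hXm1, natDegree_comp, hXm1]
          omega
        omega
      have hc : X * (P * ((X - 1) ^ 2 * g.comp (X - 1))).comp (X + 1)
          = X ^ 3 * P.comp (X + 1) * g := by
        rw [mul_comp, mul_comp, pow_comp, comp_assoc]
        simp only [sub_comp, X_comp, one_comp, add_sub_cancel_right, comp_X]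
        ring
      rw [hz, hc, zero_add] at h1
      rw [h1]
      simp [derivative_mul, derivative_pow]
  have hdiv2 : P ∣ (X + C (h : K)) * (X - 1) ^ 2 * P.comp (X - 1) := by
    apply dvd_of_min L h P _ hP0 hPZ hmin hr
    · refine le_trans natDegree_mul_le ?_
      have h2 : ((X + C (h : K)) * (X - 1) ^ 2 : K[X]).natDegree ≤ 3 := by
        refine le_trans natDegree_mul_le ?_
        rw [natDegree_X_add_C, natDegree_pow, hXm1]
      rw [natDegree_comp, hXm1]
      omega
    · intro g hg
      have h1 := hP ((X - 1) ^ 2 * P.comp (X - 1) * g)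
      have hz : L (X * ((X - 1) ^ 2 * P.comp (X - 1) * g).comp (X + 1)) = 0 := by
        have : X * ((X - 1) ^ 2 * P.comp (X - 1) * g).comp (X + 1)
            = P * (X ^ 3 * g.comp (X + 1)) := by
          rw [mul_comp, mul_comp, pow_comp, comp_assoc]
          simp only [sub_comp, X_comp, one_comp, add_sub_cancel_right, comp_X]
          ring
        rw [this]
        apply hPZ
        refine le_trans natDegree_mul_le ?_
        rw [natDegree_X_pow, natDegree_comp, hX1]
        omega
      have hc : (X + C (h : K)) * ((X - 1) ^ 2 * P.comp (X - 1) * g)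
          = (X + C (h : K)) * (X - 1) ^ 2 * P.comp (X - 1) * g := by ring
      rw [hz, hc, add_zero] at h1
      rw [h1]
      simp [derivative_mul, derivative_pow]
  -- degree of P is positive or not
  by_cases hpos : P.natDegree = 0
  · -- P constant
    obtain ⟨c, hc⟩ := natDegree_eq_zero.mp hpos
    have hc0 : c ≠ 0 := by
      rintro rfl
      exact hP0 (by rw [← hc, C_0])
    have hall : ∀ f : K[X], f.natDegree ≤ h → L f = 0 := by
      intro f hf
      have h1 := hPZ (C c⁻¹ * f) (le_trans natDegree_mul_le (by rw [natDegree_C]; omega))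
      rwa [← hc, ← mul_assoc, ← C_mul, mul_inv_cancel₀ hc0, C_1, one_mul] at h1
    have ha : a = 0 := by
      have h1 := hP 1
      rw [mul_one, one_comp, mul_one, hall _ (by rw [natDegree_X_add_C]; omega),
        hall _ (by rw [natDegree_X]; omega)] at h1
      simpa using h1.symm
    have hb : b = 0 := by
      have h1 := hP X
      rw [X_comp, hall _ (le_trans natDegree_mul_le (by rw [natDegree_X_add_C, natDegree_X]; omega)),
        hall _ (le_trans natDegree_mul_le (by rw [hX1, natDegree_X]; omega)), ha] at h1
      simpa using h1.symm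
    rcases hab with h1 | h1
    · exact h1 ha
    · exact h1 hb
  · -- roots in the algebraic closure
    let F := AlgebraicClosure K
    have : CharZero F := charZero_of_injective_algebraMap (algebraMap K F).injective
    obtain ⟨x, hx⟩ := IsAlgClosed.exists_aeval_eq_zero F P (by
      intro h0
      exact hpos (natDegree_eq_of_degree_eq_some h0))
    obtain ⟨R1, hR1⟩ := hdiv1
    obtain ⟨R2, hR2⟩ := hdiv2
    have up : ∀ y : F, aeval y P = 0 → y ≠ 0 → aeval (y + 1) P = 0 := by
      intro y hy hy0
      have h1 := congrArg (aeval y) hR1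
      rw [map_mul, map_mul, hy, zero_mul, map_pow, aeval_X, aeval_comp] at h1
      simp only [map_add, aeval_X, map_one] at h1
      rcases mul_eq_zero.mp h1 with h2 | h2
      · exact absurd (pow_eq_zero_iff (by norm_num)|>.mp h2) hy0
      · exact h2
    have down : ∀ y : F, aeval y P = 0 → y ≠ 1 → y + (h : F) ≠ 0 → aeval (y - 1) P = 0 := by
      intro y hy hy1 hyh
      have h1 := congrArg (aeval y) hR2
      rw [map_mul, map_mul, map_mul, hy, zero_mul, map_pow, aeval_comp] at h1
      simp only [map_add, map_sub, aeval_X, map_one, map_natCast] at h1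
      rcases mul_eq_zero.mp h1 with h2 | h2
      · rcases mul_eq_zero.mp h2 with h3 | h3
        · exact absurd h3 hyh
        · exact absurd (sub_eq_zero.mp (pow_eq_zero_iff (by norm_num)|>.mp h3)) hy1
      · exact h2
    -- x is a nonpositive integer
    have hxn : ∃ n : ℕ, x + (n : F) = 0 := by
      by_contra hno
      push Not at hno
      apply hP0
      apply eq_zero_of_roots P x (P.natDegree + 1) (Nat.lt_succ_self _) (1 : F) one_ne_zero
      intro i _
      rw [one_mul]
      induction i with
      | zero => simpa using hx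
      | succ i ih =>
        have h1 := up _ (ih (by omega)) (hno i)
        have h2 : x + ((i + 1 : ℕ) : F) = x + (i : F) + 1 := by push_cast; ring
        rw [h2]; exact h1
    obtain ⟨n, hn⟩ := hxn
    have hup : ∀ j ≤ n, aeval (x + (j : F)) P = 0 := by
      intro j
      induction j with
      | zero => intro _; simpa using hx
      | succ j ih =>
        intro hj
        have h1 : x + (j : F) ≠ 0 := by
          intro h0
          have : (n : F) = (j : F) := by
            have h2 : x + (n : F) = x + (j : F) := by rw [hn, h0]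
            exact add_left_cancel h2
          have : n = j := by exact_mod_cast this
          omega
        have h2 := up _ (ih (by omega)) h1
        have h3 : x + ((j + 1 : ℕ) : F) = x + (j : F) + 1 := by push_cast; ring
        rw [h3]; exact h2
    have h0root : aeval (0 : F) P = 0 := by
      have := hup n le_rfl
      rwa [hn] at this
    have hdown : ∀ j ≤ h, aeval (-(j : F)) P = 0 := by
      intro j
      induction j with
      | zero => intro _; simpa using h0root
      | succ j ih =>
        intro hj
        have h1 : -(j : F) ≠ 1 := by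
          intro h0
          have : ((j + 1 : ℕ) : F) = 0 := by push_cast; linear_combination -h0
          have : j + 1 = 0 := by exact_mod_cast this
          omega
        have h1' : -(j : F) + (h : F) ≠ 0 := by
          intro h0
          have : (h : F) = (j : F) := by linear_combination h0
          have : h = j := by exact_mod_cast this
          omega
        have h2 := down _ (ih (by omega)) h1 h1'
        have h3 : -((j + 1 : ℕ) : F) = -(j : F) - 1 := by push_cast; ring
        rw [h3]; exact h2
    apply hP0
    apply eq_zero_of_roots P (0 : F) (h + 1) (by omega) (-1 : F) (by norm_num)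
    intro i hi
    have := hdown i (by omega)
    have h3 : (0 : F) + -1 * (i : F) = -(i : F) := by ring
    rw [h3]; exact this

/-- **Non-vanishing for alternating (Abel) functionals.** -/
theorem nv_alt [CharZero K] (L : K[X] →ₗ[K] K) (h : ℕ) (hh : 2 ≤ h) (a b : K)
    (hab : a ≠ 0 ∨ b ≠ 0)
    (hP : ∀ u : K[X], L ((X + C (h : K)) * u) + L (X * u.comp (X + 1))
      = a * u.eval 1 + b * (derivative u).eval 1) :
    ∃ m, h - 1 ≤ m ∧ m ≤ h + 1 ∧ (Hk L m).det ≠ 0 := by
  obtain ⟨s, hs, hD, Q, hQm, hQd, hQ⟩ := exists_orth L (h + 1)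
  refine ⟨s, ?_, hs, hD⟩
  have := zero_estimate L h hh a b hab hP Q hQm.ne_zero
    (fun f hf => orth_ext L Q h (fun j hj => hQ j (by omega)) f hf)
  omega

end Pool.Agent.H783R2
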